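import Mathlib
import Pool.Agent.H516.PCF.All

/-!
# Postcritically finite towers: change of coordinate `y = 1 / (x - q)`
-/

set_option autoImplicit false

namespace Pool.Agent.H349.PCF

open Polynomial Pool.Agent.H516.PCF

namespace ConjAux

variable {k : Type} [Field k]

section evaluation

variable {K : Type} [Field K] [Algebra k K]

theorem aeval_reflect (y : K) (hy : y ≠ 0) (d : ℕ) (f : k[X]) (hf : f.natDegree ≤ d) :
    aeval y (reflect d f) = y ^ d * aeval y⁻¹ f := by
  let inst : Invertible y⁻¹ := ⟨y, mul_inv_cancel₀ hy, inv_mul_cancel₀ hy⟩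
  have h := eval₂_reflect_mul_pow (algebraMap k K) y⁻¹ d f hf
  have e : ⅟(y⁻¹) = y := rfl
  rw [e] at h
  rw [aeval_def, aeval_def, ← h, inv_pow]
  have hyd : y ^ d ≠ 0 := pow_ne_zero _ hy
  field_simp

theorem aeval_ct (y : K) (hy : y ≠ 0) (d : ℕ) (q : k) (R : k[X]) (hR : R.natDegree ≤ d) :
    aeval y (ct d q R) = y ^ d * aeval (algebraMap k K q + y⁻¹) R := by
  unfold ct
  rw [aeval_reflect y hy d _ (by rw [natDegree_taylor]; exact hR), taylor_apply, aeval_comp]
  congr 2
  simp [add_comm]

end evaluation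

theorem coeff_taylor_top (N : ℕ) (q : k) (R : k[X]) (hR : R.natDegree ≤ N) :
    (taylor q R).coeff N = R.coeff N := by
  rcases hR.eq_or_lt with h | h
  · rw [← h, coeff_taylor_natDegree, leadingCoeff]
  · rw [coeff_eq_zero_of_natDegree_lt h, coeff_eq_zero_of_natDegree_lt (by
      rw [natDegree_taylor]; exact h)]

theorem coeff_ct (d j : ℕ) (hj : j ≤ d) (q : k) (R : k[X]) :
    (ct d q R).coeff j = (taylor q R).coeff (d - j) := by
  unfold ct
  rw [coeff_reflect, revAt_le hj]

theorem natDegree_ct (d : ℕ) (q : k) (R : k[X]) (hR : R.natDegree ≤ d) :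
    (ct d q R).natDegree ≤ d := by
  unfold ct
  refine natDegree_reflect_le.trans ?_
  rw [natDegree_taylor]
  exact max_le le_rfl hR

theorem ct_eval_zero (d : ℕ) (q : k) (R : k[X]) (hR : R.natDegree ≤ d) :
    (ct d q R).eval 0 = R.coeff d := by
  rw [← coeff_zero_eq_eval_zero, coeff_ct d 0 (Nat.zero_le _), Nat.sub_zero]
  exact coeff_taylor_top d q R hR

theorem ct_eval (d : ℕ) (q : k) (R : k[X]) (hR : R.natDegree ≤ d) (y : k) (hy : y ≠ 0) :
    (ct d q R).eval y = y ^ d * R.eval (q + y⁻¹) := by
  have h := aeval_ct (K := k) y hy d q R hR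
  simpa [coe_aeval_eq_eval] using h

theorem ct_lin (d : ℕ) (q : k) (P Q : k[X]) :
    ct d q P - C q * ct d q Q = ct d q (P - C q * Q) := by
  unfold ct
  rw [map_sub, taylor_mul, taylor_C, reflect_sub, reflect_C_mul]

/-- Euler's formula for the reflection -/
theorem euler (d : ℕ) (f : k[X]) (hf : f.natDegree ≤ d) :
    X * derivative (reflect d f) + reflect d (X * derivative f) = C (d : k) * reflect d f := by
  have hx : ∀ (g : k[X]) (j : ℕ), (X * derivative g).coeff j = (j : k) * g.coeff j := by
    intro g j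
    cases j with
    | zero => simp
    | succ j =>
      rw [coeff_X_mul, coeff_derivative]
      push_cast
      ring
  ext j
  rw [coeff_add, hx, coeff_reflect, coeff_reflect, hx, coeff_C_mul, coeff_reflect]
  rcases le_or_gt j d with h | h
  · rw [revAt_le h, Nat.cast_sub h]
    ring
  · rw [revAt_eq_self_of_lt h, coeff_eq_zero_of_natDegree_lt (by omega)]
    ring

theorem deriv_eval (d : ℕ) (hd : 1 ≤ d) (f : k[X]) (hf : f.natDegree ≤ d) (y : k) (hy : y ≠ 0) :
    y * (derivative (reflect d f)).eval y =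
      (d : k) * (y ^ d * f.eval y⁻¹) - y ^ (d - 1) * (derivative f).eval y⁻¹ := by
  have h1 := congrArg (eval y) (euler d f hf)
  have h2 : (reflect d f).eval y = y ^ d * f.eval y⁻¹ := by
    have := aeval_reflect (K := k) y hy d f hf
    simpa [coe_aeval_eq_eval] using this
  have h3 : (reflect d (X * derivative f)).eval y = y ^ d * (X * derivative f).eval y⁻¹ := by
    have h4 : (X * derivative f).natDegree ≤ d := by
      rcases Nat.eq_zero_or_pos f.natDegree with h0 | h0
      · have : derivative f = 0 := by rw [eq_C_of_natDegree_eq_zero h0, derivative_C]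
        rw [this, mul_zero, natDegree_zero]
        omega
      · refine natDegree_mul_le.trans ?_
        have h5 := natDegree_derivative_le f
        have h6 : (X : k[X]).natDegree ≤ 1 := natDegree_X_le
        omega
    have := aeval_reflect (K := k) y hy d _ h4
    simpa [coe_aeval_eq_eval] using this
  rw [eval_add, eval_mul, eval_mul, eval_X, eval_C, h2, h3, eval_mul, eval_X] at h1
  have h7 : y ^ d * (y⁻¹ * (derivative f).eval y⁻¹) = y ^ (d - 1) * (derivative f).eval y⁻¹ := by
    have h8 : y ^ d = y ^ (d - 1) * y := by rw [← pow_succ]; congr 1; omega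
    rw [h8]
    field_simp
  rw [h7] at h1
  linear_combination h1

theorem deriv_taylor (q : k) (R : k[X]) (x : k) :
    (derivative (taylor q R)).eval x = (derivative R).eval (x + q) := by
  rw [taylor_apply, derivative_comp, eval_mul, eval_comp]
  simp

theorem wr_natDegree (d : ℕ) (hd : 1 ≤ d) (P Q : k[X]) (hP : P.natDegree ≤ d)
    (hQ : Q.natDegree ≤ d) : (wr P Q).natDegree ≤ 2 * d - 2 := by
  have dP : (derivative P).natDegree ≤ d - 1 := by
    have := natDegree_derivative_le P
    omega
  have dQ : (derivative Q).natDegree ≤ d - 1 := by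
    have := natDegree_derivative_le Q
    omega
  have e1 : d - 1 + 1 = d := by omega
  have e2 : (d - 1 : ℕ) + d = d + (d - 1) := by omega
  have c1 : (derivative P * Q).coeff (d - 1 + d) = P.coeff d * d * Q.coeff d := by
    rw [coeff_mul_add_eq_of_natDegree_le dP hQ, coeff_derivative, e1]
    congr 2
    have := congrArg (fun n : ℕ => (n : k)) e1
    push_cast at this
    exact this
  have c2 : (P * derivative Q).coeff (d - 1 + d) = P.coeff d * (Q.coeff d * d) := by
    rw [e2, coeff_mul_add_eq_of_natDegree_le hP dQ, coeff_derivative, e1]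
    congr 2
    have := congrArg (fun n : ℕ => (n : k)) e1
    push_cast at this
    exact this
  have hc : (wr P Q).coeff (2 * d - 1) = 0 := by
    have e3 : 2 * d - 1 = d - 1 + d := by omega
    unfold wr
    rw [e3, coeff_sub, c1, c2]
    ring
  have hn : (wr P Q).natDegree ≤ 2 * d - 1 := by
    unfold wr
    refine (natDegree_sub_le _ _).trans (max_le ?_ ?_)
    · exact natDegree_mul_le.trans (by omega)
    · exact natDegree_mul_le.trans (by omega)
  by_contra hcon
  have h1 : (wr P Q).natDegree = 2 * d - 1 := by omega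
  have h2 : (wr P Q).leadingCoeff = 0 := by rw [leadingCoeff, h1, hc]
  rw [leadingCoeff_eq_zero] at h2
  rw [h2, natDegree_zero] at h1
  omega

end ConjAux

open ConjAux in
theorem conj : Pool.Agent.H516.PCF.S_CONJ := by
  intro k _ _ d P Q q h hq hQq
  have hd2 := h.two_le
  have hP : P.natDegree ≤ d := by rw [← h.deg]; exact le_max_left _ _
  have hQ : Q.natDegree ≤ d := by rw [← h.deg]; exact le_max_right _ _
  set H : k[X] := P - C q * Q with hH
  have hHd : H.natDegree ≤ d := by
    refine (natDegree_sub_le _ _).trans (max_le hP ?_)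
    exact (natDegree_C_mul_le _ _).trans hQ
  have hHq : H.eval q = 0 := by
    rw [hH, eval_sub, eval_mul, eval_C, hq, sub_self]
  have ePt : Pt d P Q q = ct d q Q := rfl
  have eQt : Qt d P Q q = ct d q H := ct_lin d q P Q
  -- coefficients
  have cP : (Pt d P Q q).coeff d = Q.eval q := by
    rw [ePt, coeff_ct d d le_rfl, Nat.sub_self, taylor_coeff_zero]
  have nP : (Pt d P Q q).natDegree = d := by
    refine le_antisymm (natDegree_ct d q Q hQ) (le_natDegree_of_ne_zero ?_)
    rw [cP]
    exact hQq
  have cQ : (Qt d P Q q).coeff d = 0 := by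
    rw [eQt, coeff_ct d d le_rfl, Nat.sub_self, taylor_coeff_zero, hHq]
  have nQ : (Qt d P Q q).natDegree < d := by
    have h1 : (Qt d P Q q).natDegree ≤ d := by rw [eQt]; exact natDegree_ct d q H hHd
    rcases h1.eq_or_lt with h2 | h2
    · have h3 : (Qt d P Q q).leadingCoeff = 0 := by rw [leadingCoeff, h2, cQ]
      rw [leadingCoeff_eq_zero] at h3
      rw [h3, natDegree_zero]
      omega
    · exact h2
  have lP : (Pt d P Q q).leadingCoeff = Q.eval q := by rw [leadingCoeff, nP, cP]
  -- coprime
  have hcop : IsCoprime (Pt d P Q q) (Qt d P Q q) := by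
    have hc := (isCoprime_iff_aeval_ne_zero_of_isAlgClosed k (AlgebraicClosure k) P Q).1 h.cop
    rw [isCoprime_iff_aeval_ne_zero_of_isAlgClosed k (AlgebraicClosure k)]
    intro y
    by_contra hcon
    push Not at hcon
    obtain ⟨h1, h2⟩ := hcon
    rw [eQt] at h2
    rw [ePt] at h1
    by_cases hy : y = 0
    · rw [hy, ← coeff_zero_eq_aeval_zero', _root_.map_eq_zero, coeff_ct d 0 (Nat.zero_le _),
        Nat.sub_zero, coeff_taylor_top d q _ (by assumption)] at h1 h2
      rw [hH, coeff_sub, coeff_C_mul, h1, mul_zero, sub_zero] at h2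
      have h3 := h.deg
      rcases max_choice P.natDegree Q.natDegree with h4 | h4
      · rw [h4] at h3
        rw [← h3] at h2
        have h5 : P = 0 := leadingCoeff_eq_zero.1 h2
        rw [h5, natDegree_zero] at h3
        omega
      · rw [h4] at h3
        rw [← h3] at h1
        have h5 : Q = 0 := leadingCoeff_eq_zero.1 h1
        rw [h5, natDegree_zero] at h3
        omega
    · rw [aeval_ct y hy d q Q hQ] at h1
      rw [aeval_ct y hy d q H hHd] at h2
      have hyd : y ^ d ≠ 0 := pow_ne_zero _ hy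
      have h3 := (mul_eq_zero.1 h1).resolve_left hyd
      have h4 := (mul_eq_zero.1 h2).resolve_left hyd
      rw [hH, map_sub, map_mul, h3, mul_zero, sub_zero] at h4
      rcases hc (algebraMap k (AlgebraicClosure k) q + y⁻¹) with h5 | h5
      · exact h5 h4
      · exact h5 h3
  have hQt0 : Qt d P Q q ≠ 0 := by
    intro h0
    rw [h0] at hcop
    have := natDegree_eq_zero_of_isUnit (isCoprime_zero_right.1 hcop)
    omega
  -- evaluation
  have hev : ∀ y, y ≠ 0 → (Pt d P Q q).eval y = y ^ d * Q.eval (q + y⁻¹) ∧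
      (Qt d P Q q).eval y = y ^ d * (P.eval (q + y⁻¹) - q * Q.eval (q + y⁻¹)) ∧
      (wr (Pt d P Q q) (Qt d P Q q)).eval y = y ^ (2 * d - 2) * (wr P Q).eval (q + y⁻¹) := by
    intro y hy
    have e1 : (Pt d P Q q).eval y = y ^ d * Q.eval (q + y⁻¹) := by
      rw [ePt, ct_eval d q Q hQ y hy]
    have e2 : (Qt d P Q q).eval y = y ^ d * (P.eval (q + y⁻¹) - q * Q.eval (q + y⁻¹)) := by
      rw [eQt, ct_eval d q H hHd y hy, hH, eval_sub, eval_mul, eval_C]
    refine ⟨e1, e2, ?_⟩
    have d1 : y * (derivative (Pt d P Q q)).eval y =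
        (d : k) * (y ^ d * Q.eval (q + y⁻¹)) - y ^ (d - 1) * (derivative Q).eval (q + y⁻¹) := by
      have := deriv_eval d (by omega) (taylor q Q) (by rw [natDegree_taylor]; exact hQ) y hy
      rw [taylor_eval, deriv_taylor, add_comm y⁻¹ q] at this
      exact this
    have d2 : y * (derivative (Qt d P Q q)).eval y =
        (d : k) * (y ^ d * (P.eval (q + y⁻¹) - q * Q.eval (q + y⁻¹))) -
        y ^ (d - 1) * ((derivative P).eval (q + y⁻¹) - q * (derivative Q).eval (q + y⁻¹)) := by
      have := deriv_eval d (by omega) (taylor q H) (by rw [natDegree_taylor]; exact hHd) y hy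
      rw [taylor_eval, deriv_taylor, add_comm y⁻¹ q, hH, derivative_sub, derivative_C_mul,
        eval_sub, eval_sub, eval_mul, eval_mul, eval_C, ← hH] at this
      rw [eQt]
      exact this
    apply mul_left_cancel₀ hy
    have e3 : y ^ d = y ^ (d - 1) * y := by rw [← pow_succ]; congr 1; omega
    have e4 : y ^ (2 * d - 2) = y ^ (d - 1) * y ^ (d - 1) := by rw [← pow_add]; congr 1; omega
    unfold wr at *
    rw [eval_sub, eval_mul, eval_mul, e1, e2, eval_sub, eval_mul, eval_mul, e4]
    rw [e3] at *
    set Y := y ^ (d - 1)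
    linear_combination (Y * y * (P.eval (q + y⁻¹) - q * Q.eval (q + y⁻¹))) * d1 -
      (Y * y * Q.eval (q + y⁻¹)) * d2
  have hwd := wr_natDegree d (by omega) P Q hP hQ
  refine ⟨⟨hd2, nP, nQ, hQt0, hcop⟩, lP, ?_, hev, ?_, ?_, ?_⟩
  · rw [eQt, coeff_ct d (d - 1) (by omega)]
    have e1 : d - (d - 1) = 1 := by omega
    rw [e1, taylor_coeff_one, hH, derivative_sub, derivative_C_mul, eval_sub, eval_mul, eval_C,
      eq_div_iff hQq]
    unfold wr
    rw [eval_sub, eval_mul, eval_mul, hq]
    ring
  · rw [ePt, ct_eval_zero d q Q hQ]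
  · rw [eQt, ct_eval_zero d q H hHd, hH, coeff_sub, coeff_C_mul]
  · have heq : wr (Pt d P Q q) (Qt d P Q q) = ct (2 * d - 2) q (wr P Q) := by
      apply Polynomial.eq_of_infinite_eval_eq
      refine Set.Infinite.mono (s := {0}ᶜ) ?_ (Set.Finite.infinite_compl (Set.finite_singleton 0))
      intro y hy
      have hy' : y ≠ 0 := hy
      change eval y _ = eval y _
      rw [(hev y hy').2.2, ct_eval (2 * d - 2) q _ hwd y hy']
    rw [heq, ct_eval_zero _ q _ hwd]

end Pool.Agent.H349.PCF
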