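import Mathlib
import Pool.Agent.H516.PCF.All

/-!
# Postcritically finite towers: degrees, leading coefficients and coprimality of the iterates
-/

set_option autoImplicit false

namespace Pool.Agent.H349.PCF

open Polynomial Pool.Agent.H516.PCF

variable {k : Type} [Field k]

theorem term_deg {A B : k[X]} {N d i : ℕ} (hN : 1 ≤ N) (hA : A.natDegree ≤ N) (hB : B.natDegree < N)
    (hi : i ≤ d) (r : k) : (C r * A ^ i * B ^ (d - i)).natDegree ≤ d * N - (d - i) := by
  have h1 : (C r * A ^ i * B ^ (d - i)).natDegree ≤ i * N + (d - i) * (N - 1) := by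
    refine natDegree_mul_le.trans ?_
    have h2 : (C r * A ^ i).natDegree ≤ i * N :=
      (natDegree_C_mul_le _ _).trans (natDegree_pow_le_of_le i hA)
    have h3 : (B ^ (d - i)).natDegree ≤ (d - i) * (N - 1) :=
      natDegree_pow_le_of_le (d - i) (by omega)
    omega
  refine h1.trans ?_
  obtain ⟨j, rfl⟩ := Nat.exists_eq_add_of_le hi
  obtain ⟨M, rfl⟩ := Nat.exists_eq_add_of_le hN
  have e1 : i + j - i = j := by omega
  have e2 : 1 + M - 1 = M := by omega
  rw [e1, e2]
  have e3 : (i + j) * (1 + M) = i * (1 + M) + j * M + j := by ring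
  omega

theorem hom_split (d : ℕ) (R A B : k[X]) : hom d R A B =
    (∑ i ∈ Finset.range d, C (R.coeff i) * A ^ i * B ^ (d - i)) + C (R.coeff d) * A ^ d := by
  unfold hom
  rw [Finset.sum_range_succ, Nat.sub_self, pow_zero, mul_one]

theorem low_deg {A B : k[X]} {N d : ℕ} (hN : 1 ≤ N) (hA : A.natDegree ≤ N) (hB : B.natDegree < N)
    (R : k[X]) :
    (∑ i ∈ Finset.range d, C (R.coeff i) * A ^ i * B ^ (d - i)).natDegree ≤ d * N - 1 := by
  refine natDegree_sum_le_of_forall_le _ _ fun i hi => ?_
  rw [Finset.mem_range] at hi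
  refine (term_deg hN hA hB hi.le _).trans ?_
  omega

theorem hom_coeff_top {A B : k[X]} {N d : ℕ} (hN : 1 ≤ N) (hd : 1 ≤ d) (hA : A.natDegree = N)
    (hB : B.natDegree < N) (R : k[X]) :
    (hom d R A B).coeff (d * N) = R.coeff d * A.leadingCoeff ^ d ∧
      (hom d R A B).natDegree ≤ d * N := by
  have hpos : 1 ≤ d * N := Nat.mul_pos hd hN
  have h1 := low_deg (d := d) hN hA.le hB R
  rw [hom_split]
  constructor
  · rw [coeff_add, coeff_eq_zero_of_natDegree_lt (by omega), zero_add, coeff_C_mul]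
    congr 1
    rw [← hA]
    exact coeff_pow_mul_natDegree A d
  · refine natDegree_add_le_of_degree_le (by omega) ?_
    exact (natDegree_C_mul_le _ _).trans (natDegree_pow_le_of_le d hA.le)

theorem hom_low {A B : k[X]} {N d : ℕ} (hN : 1 ≤ N) (hA : A.natDegree = N)
    (hB : B.natDegree < N) (R : k[X]) (hR : R.coeff d = 0) :
    (hom d R A B).natDegree ≤ d * N - 1 := by
  rw [hom_split, hR, C_0, zero_mul, add_zero]
  exact low_deg hN hA.le hB R

theorem hom_coeff_sub {A B : k[X]} {N d : ℕ} (hN : 1 ≤ N) (hd : 1 ≤ d) (hA : A.natDegree = N)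
    (hB : B.natDegree < N) (R : k[X]) (hR : R.coeff d = 0) :
    (hom d R A B).coeff (d * N - 1) =
      R.coeff (d - 1) * A.leadingCoeff ^ (d - 1) * B.coeff (N - 1) := by
  rw [hom_split, hR, C_0, zero_mul, add_zero]
  obtain ⟨e, rfl⟩ := Nat.exists_eq_add_of_le hd
  have e0 : 1 + e = e + 1 := by omega
  rw [e0, Finset.sum_range_succ, Nat.add_sub_cancel, Nat.add_sub_cancel_left, pow_one, coeff_add]
  have h1 : (∑ i ∈ Finset.range e, C (R.coeff i) * A ^ i * B ^ (e + 1 - i)).natDegree ≤
      (e + 1) * N - 2 := by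
    refine natDegree_sum_le_of_forall_le _ _ fun i hi => ?_
    rw [Finset.mem_range] at hi
    refine (term_deg hN hA.le hB (by omega) _).trans ?_
    omega
  rcases Nat.eq_zero_or_pos e with rfl | he
  · rw [Finset.range_zero, Finset.sum_empty, coeff_zero, zero_add, pow_zero, pow_zero]
    simp only [zero_add, one_mul, mul_one]
    rw [coeff_C_mul]
  · have h2 : 2 ≤ (e + 1) * N := by nlinarith
    rw [coeff_eq_zero_of_natDegree_lt (by omega), zero_add, mul_assoc, coeff_C_mul, mul_assoc]
    congr 1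
    have h3 : (e + 1) * N - 1 = e * N + (N - 1) := by
      have : (e + 1) * N = e * N + N := by ring
      omega
    rw [h3, coeff_mul_add_eq_of_natDegree_le (natDegree_pow_le_of_le e hA.le) (by omega : B.natDegree ≤ N - 1)]
    congr 1
    rw [← hA]
    exact coeff_pow_mul_natDegree A e

section evaluation

variable {K : Type} [Field K] [Algebra k K]

theorem aeval_hom (x : K) (d : ℕ) (R A B : k[X]) : aeval x (hom d R A B) =
    ∑ i ∈ Finset.range (d + 1), algebraMap k K (R.coeff i) * aeval x A ^ i * aeval x B ^ (d - i) := by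
  unfold hom
  rw [map_sum]
  refine Finset.sum_congr rfl fun i _ => ?_
  rw [map_mul, map_mul, aeval_C, map_pow, map_pow]

theorem aeval_hom_ne (x : K) (d : ℕ) (R A B : k[X]) (hR : R.natDegree ≤ d) (hb : aeval x B ≠ 0) :
    aeval x (hom d R A B) = aeval x B ^ d * aeval (aeval x A / aeval x B) R := by
  rw [aeval_hom, aeval_eq_sum_range' (Nat.lt_succ_of_le hR), Finset.mul_sum]
  refine Finset.sum_congr rfl fun i hi => ?_
  rw [Finset.mem_range] at hi
  have h1 : aeval x B ^ d = aeval x B ^ i * aeval x B ^ (d - i) := by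
    rw [← pow_add]; congr 1; omega
  rw [h1, Algebra.smul_def, div_pow]
  field_simp

theorem aeval_hom_zero (x : K) (d : ℕ) (R A B : k[X]) (hb : aeval x B = 0) :
    aeval x (hom d R A B) = algebraMap k K (R.coeff d) * aeval x A ^ d := by
  rw [aeval_hom, Finset.sum_range_succ, Nat.sub_self, pow_zero, mul_one]
  rw [Finset.sum_eq_zero fun i hi => ?_, zero_add]
  rw [Finset.mem_range] at hi
  rw [hb, zero_pow (by omega), mul_zero]

end evaluation

theorem hom_coprime {d : ℕ} {P Q A B : k[X]} (h : Nrm d P Q) (hAB : IsCoprime A B) :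
    IsCoprime (hom d P A B) (hom d Q A B) := by
  have hc := (isCoprime_iff_aeval_ne_zero_of_isAlgClosed k (AlgebraicClosure k) P Q).1 h.cop
  have hc' := (isCoprime_iff_aeval_ne_zero_of_isAlgClosed k (AlgebraicClosure k) A B).1 hAB
  rw [isCoprime_iff_aeval_ne_zero_of_isAlgClosed k (AlgebraicClosure k)]
  intro x
  by_cases hb : aeval x B = 0
  · left
    rw [aeval_hom_zero x d P A B hb]
    have ha : aeval x A ≠ 0 := by
      rcases hc' x with h1 | h1
      · exact h1
      · exact absurd hb h1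
    have hP : P.coeff d ≠ 0 := by
      rw [← h.degP]
      have h0 : P ≠ 0 := by
        intro h0
        have h1 := h.degP
        have h2 := h.two_le
        rw [h0, natDegree_zero] at h1
        omega
      exact leadingCoeff_ne_zero.2 h0
    refine mul_ne_zero ?_ (pow_ne_zero _ ha)
    exact (_root_.map_ne_zero _).2 hP
  · rw [aeval_hom_ne x d P A B h.degP.le hb, aeval_hom_ne x d Q A B h.degQ.le hb]
    rcases hc (aeval x A / aeval x B) with h1 | h1
    · exact Or.inl (mul_ne_zero (pow_ne_zero _ hb) h1)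
    · exact Or.inr (mul_ne_zero (pow_ne_zero _ hb) h1)

theorem geom_succ (d n : ℕ) : geom d (n + 1) = d * geom d n + 1 := by
  unfold geom
  rw [Finset.sum_range_succ', Finset.mul_sum, pow_zero]
  congr 1
  exact Finset.sum_congr rfl fun i _ => by ring

/-- the inductive statement -/
theorem main {d : ℕ} {P Q : k[X]} (h : Nrm d P Q) (n : ℕ) :
    (pn d P Q n).natDegree = d ^ n ∧ (pn d P Q n).leadingCoeff = P.leadingCoeff ^ geom d n ∧
    (qn d P Q n).natDegree < d ^ n ∧ IsCoprime (pn d P Q n) (qn d P Q n) ∧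
    (qn d P Q n).coeff (d ^ n - 1) * P.leadingCoeff ^ n =
      (pn d P Q n).leadingCoeff * Q.coeff (d - 1) ^ n := by
  have hd2 := h.two_le
  have hP0 : P ≠ 0 := by
    intro h0
    have h1 := h.degP
    rw [h0, natDegree_zero] at h1
    omega
  have hPd : P.coeff d = P.leadingCoeff := by rw [leadingCoeff, h.degP]
  have hQd : Q.coeff d = 0 := coeff_eq_zero_of_natDegree_lt h.degQ
  induction n with
  | zero =>
    have e1 : pn d P Q 0 = X := rfl
    have e2 : qn d P Q 0 = 1 := rfl
    rw [e1, e2]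
    refine ⟨by simp, by simp [geom], by simp, isCoprime_one_right, by simp⟩
  | succ n ih =>
    obtain ⟨i1, i2, i3, i4, i5⟩ := ih
    have e1 : pn d P Q (n + 1) = hom d P (pn d P Q n) (qn d P Q n) := rfl
    have e2 : qn d P Q (n + 1) = hom d Q (pn d P Q n) (qn d P Q n) := rfl
    rw [e1, e2]
    set A := pn d P Q n
    set B := qn d P Q n
    have hN : 1 ≤ d ^ n := Nat.one_le_pow _ _ (by omega)
    have hd1 : 1 ≤ d := by omega
    have hdn : d ^ (n + 1) = d * d ^ n := pow_succ' d n
    obtain ⟨j1, j2⟩ := hom_coeff_top hN hd1 i1 i3 P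
    have hA0 : A.leadingCoeff ≠ 0 := by
      rw [i2]
      exact pow_ne_zero _ (leadingCoeff_ne_zero.2 hP0)
    have hne : (hom d P A B).coeff (d * d ^ n) ≠ 0 := by
      rw [j1, hPd]
      exact mul_ne_zero (leadingCoeff_ne_zero.2 hP0) (pow_ne_zero _ hA0)
    have hnat : (hom d P A B).natDegree = d * d ^ n :=
      le_antisymm j2 (le_natDegree_of_ne_zero hne)
    have hlead : (hom d P A B).leadingCoeff = P.leadingCoeff * A.leadingCoeff ^ d := by
      rw [leadingCoeff, hnat, j1, hPd]
    have hpos : 1 ≤ d * d ^ n := Nat.mul_pos hd1 hN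
    refine ⟨by rw [hnat, hdn], ?_, ?_, hom_coprime h i4, ?_⟩
    · rw [hlead, i2, geom_succ, pow_succ', ← pow_mul, mul_comm d (geom d n)]
    · have := hom_low hN i1 i3 Q hQd
      rw [hdn]
      omega
    · rw [hdn, hom_coeff_sub hN hd1 i1 i3 Q hQd, hlead]
      have e3 : A.leadingCoeff ^ d = A.leadingCoeff ^ (d - 1) * A.leadingCoeff := by
        rw [← pow_succ]; congr 1; omega
      rw [e3, pow_succ, pow_succ]
      linear_combination Q.coeff (d - 1) * A.leadingCoeff ^ (d - 1) * P.leadingCoeff * i5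

theorem deg : Pool.Agent.H516.PCF.S_DEG := by
  intro k _ d P Q h n
  obtain ⟨i1, i2, i3, i4, i5⟩ := main h n
  have hN : 1 ≤ d ^ n := Nat.one_le_pow _ _ (by have := h.two_le; omega)
  refine ⟨i1, i2, i3, ?_, i4, fun t => ?_, fun h1 => ?_⟩
  · intro h0
    have h00 : (pn d P Q n).natDegree = 0 := by
      rcases Nat.eq_zero_or_pos n with rfl | hn
      · -- `qn 0 = 1`
        have e2 : qn d P Q 0 = 1 := rfl
        rw [e2] at h0
        exact absurd h0 one_ne_zero
      · rw [h0] at i4
        exact natDegree_eq_zero_of_isUnit (isCoprime_zero_right.1 i4)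
    omega
  · have h2 : (C t * qn d P Q n).natDegree < (pn d P Q n).natDegree := by
      rw [i1]
      exact (natDegree_C_mul_le _ _).trans_lt i3
    have h3 : (C t * qn d P Q n).degree < (pn d P Q n).degree := degree_lt_degree h2
    unfold gp
    exact ⟨by rw [natDegree_sub_eq_left_of_natDegree_lt h2, i1],
      by rw [leadingCoeff_sub_of_degree_lt h3, i2]⟩
  · rw [← i5, leadingCoeff]
    congr 2
    omega

end Pool.Agent.H349.PCF
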