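import Mathlib
import Pool.Agent.H516.PCF.All

/-!
# Postcritically finite towers: composition of the iterates, fibres
-/

set_option autoImplicit false

namespace Pool.Agent.H349.PCF

open Polynomial Pool.Agent.H516.PCF

namespace SemiAux

variable {k : Type} [Field k]

section evaluation

variable {K : Type} [Field K] [Algebra k K]

theorem aev (x : K) (d : ℕ) (R A B : k[X]) (hR : R.natDegree ≤ d) (hb : aeval x B ≠ 0) :
    aeval x (hom d R A B) = aeval x B ^ d * aeval (aeval x A / aeval x B) R := by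
  unfold hom
  rw [map_sum, aeval_eq_sum_range' (Nat.lt_succ_of_le hR), Finset.mul_sum]
  refine Finset.sum_congr rfl fun i hi => ?_
  rw [Finset.mem_range] at hi
  have h1 : aeval x B ^ d = aeval x B ^ i * aeval x B ^ (d - i) := by
    rw [← pow_add]; congr 1; omega
  rw [map_mul, map_mul, aeval_C, map_pow, map_pow, h1, Algebra.smul_def, div_pow]
  field_simp

end evaluation

theorem iota (p : k[X]) : algebraMap k[X] (FractionRing k[X]) p =
    aeval (algebraMap k[X] (FractionRing k[X]) X) p := by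
  rw [aeval_algebraMap_apply, aeval_X_left_apply]

theorem key (d : ℕ) (R U V : k[X]) (hR : R.natDegree ≤ d) (hV : V ≠ 0) :
    algebraMap k[X] (FractionRing k[X]) (hom d R U V) =
      algebraMap k[X] (FractionRing k[X]) V ^ d *
      aeval (algebraMap k[X] (FractionRing k[X]) U / algebraMap k[X] (FractionRing k[X]) V) R := by
  have hV' : algebraMap k[X] (FractionRing k[X]) V ≠ 0 := by
    rw [Ne, FaithfulSMul.algebraMap_eq_zero_iff]
    exact hV
  rw [iota (hom d R U V), iota U, iota V]
  rw [iota V] at hV'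
  exact aev _ d R U V hR hV'

theorem inj : Function.Injective (algebraMap k[X] (FractionRing k[X])) :=
  FaithfulSMul.algebraMap_injective _ _

/-- one step -/
theorem step {d e : ℕ} {R A B U V A' B' : k[X]} (hR : R.natDegree ≤ d) (hV : V ≠ 0)
    (hA : A.natDegree ≤ e) (hB : B.natDegree ≤ e) (hB' : B' ≠ 0)
    (h1 : A' = hom e A U V) (h2 : B' = hom e B U V)
    (hn : (hom d R A B).natDegree ≤ d * e) :
    hom d R A' B' = hom (d * e) (hom d R A B) U V := by
  apply inj
  have hV' : algebraMap k[X] (FractionRing k[X]) V ≠ 0 := by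
    rw [Ne, FaithfulSMul.algebraMap_eq_zero_iff]
    exact hV
  have hB'' : algebraMap k[X] (FractionRing k[X]) B' ≠ 0 := by
    rw [Ne, FaithfulSMul.algebraMap_eq_zero_iff]
    exact hB'
  have k1 := key e A U V hA hV
  have k2 := key e B U V hB hV
  rw [← h1] at k1
  rw [← h2] at k2
  rw [key d R A' B' hR hB', key (d * e) _ U V hn hV]
  set y := algebraMap k[X] (FractionRing k[X]) U / algebraMap k[X] (FractionRing k[X]) V
  have hy : aeval y B ≠ 0 := by
    intro h0
    rw [h0, mul_zero] at k2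
    exact hB'' k2
  rw [aev y d R A B hR hy, k1, k2]
  rw [mul_div_mul_left _ _ (pow_ne_zero e hV'), mul_pow, ← pow_mul, mul_comm e d]
  ring

theorem comp (hDEG : S_DEG) {d : ℕ} {P Q : k[X]} (h : Nrm d P Q) (m n : ℕ) :
    pn d P Q (m + n) = hom (d ^ m) (pn d P Q m) (pn d P Q n) (qn d P Q n) ∧
    qn d P Q (m + n) = hom (d ^ m) (qn d P Q m) (pn d P Q n) (qn d P Q n) := by
  obtain ⟨-, -, -, hV, -, -, -⟩ := hDEG k d P Q h n
  induction m with
  | zero =>
    have e1 : pn d P Q 0 = X := rfl
    have e2 : qn d P Q 0 = 1 := rfl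
    rw [e1, e2, Nat.zero_add, pow_zero]
    constructor
    · simp [hom, Finset.sum_range_succ, coeff_X]
    · simp [hom, Finset.sum_range_succ, coeff_one]
  | succ m ih =>
    obtain ⟨ih1, ih2⟩ := ih
    obtain ⟨a1, -, a3, a4, -, -, -⟩ := hDEG k d P Q h m
    obtain ⟨b1, -, b3, b4, -, -, -⟩ := hDEG k d P Q h (m + 1)
    obtain ⟨-, -, -, c4, -, -, -⟩ := hDEG k d P Q h (m + n)
    have e0 : m + 1 + n = (m + n) + 1 := by omega
    have e1 : pn d P Q (m + n + 1) = hom d P (pn d P Q (m + n)) (qn d P Q (m + n)) := rfl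
    have e2 : qn d P Q (m + n + 1) = hom d Q (pn d P Q (m + n)) (qn d P Q (m + n)) := rfl
    have e3 : pn d P Q (m + 1) = hom d P (pn d P Q m) (qn d P Q m) := rfl
    have e4 : qn d P Q (m + 1) = hom d Q (pn d P Q m) (qn d P Q m) := rfl
    have hdm : d ^ (m + 1) = d * d ^ m := pow_succ' d m
    rw [e3, hdm] at b1
    rw [e4, hdm] at b3
    rw [e0, e1, e2, e3, e4, hdm]
    exact ⟨step h.degP.le hV a1.le a3.le c4 ih1 ih2 b1.le,
      step h.degQ.le hV a1.le a3.le c4 ih1 ih2 b3.le⟩

theorem hom_sub (d : ℕ) (t : k) (R S A B : k[X]) :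
    hom d (R - C t * S) A B = hom d R A B - C t * hom d S A B := by
  unfold hom
  rw [Finset.mul_sum, ← Finset.sum_sub_distrib]
  refine Finset.sum_congr rfl fun i _ => ?_
  rw [coeff_sub, coeff_C_mul, C_sub, C_mul]
  ring

theorem gp_comp (hDEG : S_DEG) {d : ℕ} {P Q : k[X]} (h : Nrm d P Q) (m n : ℕ) (t : k) :
    gp d P Q (m + n) t = hom (d ^ m) (gp d P Q m t) (pn d P Q n) (qn d P Q n) := by
  unfold gp
  rw [hom_sub, (comp hDEG h m n).1, (comp hDEG h m n).2]

theorem prod_form [IsAlgClosed k] (hDEG : S_DEG) {d : ℕ} {P Q : k[X]} (h : Nrm d P Q) (m n : ℕ)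
    (t : k) : gp d P Q (m + n) t =
      C (P.leadingCoeff ^ geom d m) * ((fib d P Q m t).map fun s => gp d P Q n s).prod := by
  obtain ⟨-, -, -, hV, -, -, -⟩ := hDEG k d P Q h n
  obtain ⟨-, -, -, -, -, a6, -⟩ := hDEG k d P Q h m
  obtain ⟨g1, g2⟩ := a6 t
  have hV' : algebraMap k[X] (FractionRing k[X]) (qn d P Q n) ≠ 0 := by
    rw [Ne, FaithfulSMul.algebraMap_eq_zero_iff]
    exact hV
  have hs := IsAlgClosed.splits (gp d P Q m t)
  have hcard : (fib d P Q m t).card = d ^ m := by
    unfold fib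
    rw [← hs.natDegree_eq_card_roots, g1]
  have hprod : gp d P Q m t = C (P.leadingCoeff ^ geom d m) *
      ((fib d P Q m t).map fun s => X - C s).prod := by
    have := hs.eq_prod_roots
    rw [g2] at this
    exact this
  apply inj
  rw [gp_comp hDEG h, key _ _ _ _ g1.le hV, map_mul, map_multiset_prod, Multiset.map_map]
  set ι := algebraMap k[X] (FractionRing k[X]) with hι
  set y := ι (pn d P Q n) / ι (qn d P Q n) with hy
  have e1 : aeval y (gp d P Q m t) = ι (C (P.leadingCoeff ^ geom d m)) *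
      ((fib d P Q m t).map fun s => y - ι (C s)).prod := by
    conv_lhs => rw [hprod]
    rw [map_mul, map_multiset_prod, Multiset.map_map]
    congr 1
    · rw [aeval_C]
      exact IsScalarTower.algebraMap_apply k k[X] (FractionRing k[X]) _
    · congr 1
      refine Multiset.map_congr rfl fun s _ => ?_
      simp only [Function.comp_apply, map_sub, aeval_X, aeval_C]
      congr 1
  rw [e1, ← hcard]
  have e2 : ι (qn d P Q n) ^ (fib d P Q m t).card =
      ((fib d P Q m t).map fun _ => ι (qn d P Q n)).prod := by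
    rw [Multiset.map_const', Multiset.prod_replicate]
  have e3 : ((fib d P Q m t).map fun _ => ι (qn d P Q n)).prod *
      ((fib d P Q m t).map fun s => y - ι (C s)).prod =
      ((fib d P Q m t).map (⇑ι ∘ fun s => gp d P Q n s)).prod := by
    rw [← Multiset.prod_map_mul]
    congr 1
    refine Multiset.map_congr rfl fun s _ => ?_
    simp only [Function.comp_apply, gp, map_sub, map_mul]
    rw [mul_sub, hy, mul_div_cancel₀ _ hV']
    ring
  rw [← e3, e2]
  ring

end SemiAux

open SemiAux in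
theorem semi (hDEG : Pool.Agent.H516.PCF.S_DEG) : Pool.Agent.H516.PCF.S_SEMI := by
  intro k _ _ d P Q h m n t
  have h1 := prod_form hDEG h m n t
  refine ⟨h1, ?_⟩
  have hP0 : P ≠ 0 := by
    intro h0
    have h1 := h.degP
    have h2 := h.two_le
    rw [h0, natDegree_zero] at h1
    omega
  have ha : P.leadingCoeff ^ geom d m ≠ 0 := pow_ne_zero _ (leadingCoeff_ne_zero.2 hP0)
  have hne : ∀ s, gp d P Q n s ≠ 0 := by
    intro s h0
    obtain ⟨-, -, -, -, -, a6, -⟩ := hDEG k d P Q h n
    have h2 := (a6 s).2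
    rw [h0, leadingCoeff_zero] at h2
    exact pow_ne_zero _ (leadingCoeff_ne_zero.2 hP0) h2.symm
  have e1 : fib d P Q (m + n) t = (gp d P Q (m + n) t).roots := rfl
  rw [e1, h1, roots_C_mul _ ha, roots_multiset_prod, Multiset.bind_map]
  · rfl
  · intro h0
    rw [Multiset.mem_map] at h0
    obtain ⟨s, -, hs⟩ := h0
    exact hne s hs

end Pool.Agent.H349.PCF
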