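import Mathlib
import Pool.Agent.H516.PCF.All

/-!
# Postcritically finite towers: degree and leading coefficient of a Wronskian
-/

set_option autoImplicit false

namespace Pool.Agent.H349.PCF

open Polynomial Pool.Agent.H516.PCF

theorem wdeg : Pool.Agent.H516.PCF.S_WDEG := by
  intro k _ _ U V hV hUV
  obtain ⟨l, hl⟩ : ∃ l, V.natDegree = l := ⟨_, rfl⟩
  obtain ⟨j, hj⟩ : ∃ j, U.natDegree = l + 1 + j := Nat.exists_eq_add_of_le (by omega)
  have hU0 : U ≠ 0 := by
    rintro rfl
    rw [natDegree_zero] at hj
    omega
  have hu : U.coeff (l + 1 + j) = U.leadingCoeff := by rw [leadingCoeff, hj]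
  have hv : V.coeff l = V.leadingCoeff := by rw [leadingCoeff, hl]
  have d1 : (derivative U).natDegree ≤ l + j := by
    have := natDegree_derivative_le U
    omega
  -- the first term
  have c1 : (derivative U * V).coeff (l + j + l) =
      ((l : k) + 1 + j) * U.leadingCoeff * V.leadingCoeff := by
    rw [coeff_mul_add_eq_of_natDegree_le d1 hl.le, coeff_derivative, hv]
    have e1 : l + j + 1 = l + 1 + j := by omega
    rw [e1, hu]
    push_cast
    ring
  have n1 : (derivative U * V).natDegree ≤ l + j + l := natDegree_mul_le_of_le d1 hl.le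
  -- the second term
  have c2 : (U * derivative V).coeff (l + j + l) = (l : k) * U.leadingCoeff * V.leadingCoeff ∧
      (U * derivative V).natDegree ≤ l + j + l := by
    rcases Nat.eq_zero_or_pos l with h0 | h0
    · have hV' : derivative V = 0 := by
        rw [eq_C_of_natDegree_eq_zero (hl.trans h0), derivative_C]
      rw [hV', mul_zero, coeff_zero, natDegree_zero, h0]
      simp
    · have d2 : (derivative V).natDegree ≤ l - 1 := by
        have := natDegree_derivative_le V
        omega
      have e2 : l + j + l = (l + 1 + j) + (l - 1) := by omega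
      rw [e2, coeff_mul_add_eq_of_natDegree_le hj.le d2, coeff_derivative, hu]
      have e3 : l - 1 + 1 = l := by omega
      rw [e3, hv]
      refine ⟨?_, natDegree_mul_le_of_le hj.le d2⟩
      have e4 : ((l - 1 : ℕ) : k) + 1 = l := by
        rw [Nat.cast_sub h0]
        simp
      rw [e4]
      ring
  have hc : (wr U V).coeff (l + j + l) = ((1 : k) + j) * U.leadingCoeff * V.leadingCoeff := by
    unfold wr
    rw [coeff_sub, c1, c2.1]
    ring
  have hn : (wr U V).natDegree ≤ l + j + l := by
    unfold wr
    exact (natDegree_sub_le _ _).trans (max_le n1 c2.2)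
  have hne : (wr U V).coeff (l + j + l) ≠ 0 := by
    rw [hc]
    refine mul_ne_zero (mul_ne_zero ?_ (leadingCoeff_ne_zero.2 hU0)) (leadingCoeff_ne_zero.2 hV)
    have : ((1 + j : ℕ) : k) ≠ 0 := Nat.cast_ne_zero.2 (by omega)
    push_cast at this
    exact this
  have hnat : (wr U V).natDegree = l + j + l := le_antisymm hn (le_natDegree_of_ne_zero hne)
  refine ⟨fun h0 => hne (by rw [h0, coeff_zero]), by omega, ?_⟩
  rw [leadingCoeff, hnat, hc, hj, hl]
  push_cast
  ring

end Pool.Agent.H349.PCF
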